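import Pool.Agent.Q74.BT.Stm3
import Pool.Agent.Q74.BT.FinB
import Pool.Agent.Q74.AR.Lim
import Pool.Agent.Q158.Pair.Upper

/-!
# Project BT (helper74), part 3: job Full
-/

set_option autoImplicit false

namespace Pool.Agent.Q26.BT

open Finset
open Pool.Agent.Q158.Pair (T surv nc q)
open Pool.Agent.Q74.AR (oc bE)
open Pool.Agent.Q74.KP (EE Erf pq Pe EE_sub EE_const EE_nonneg)
open Pool.Agent.Q74.BL (nx ww)
open Pool.Agent.Q74.SF (CG CG_mono CG_const CG_mul CG_sub)
open Pool.Agent.Q74.BT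
open Pool.Agent.H395R2.G3 (rr FF rate)

/-- two walkers at distance one -/
lemma pq_one_le : ∃ C : ℝ, 0 < C ∧ ∀ t : ℕ, 1 ≤ t → pq t 1 ≤ C / √t := by
  obtain ⟨C, hC, h⟩ := Pool.Agent.Q158.Pair.surv_le_sq
  refine ⟨3 * C, by positivity, fun t ht => ?_⟩
  have h1 : pq t 1 ≤ surv (2 * t) (2, 0) :=
    (Pool.Agent.Q74.AR.q_le_qq (2 * t) (2, 0)).trans (Pool.Agent.Q74.AR.qq_le_surv (2 * t) (2, 0))
  refine h1.trans ((h (2 * t) (by omega) (2, 0)).trans ?_)
  have h2 : Pool.Agent.Q158.Pair.sq ((2 : ℕ), (0 : ℤ)) = 0 := by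
    unfold Pool.Agent.Q158.Pair.sq
    simp
  rw [h2]
  have h3 : C * (1 + (((2 : ℕ), (0 : ℤ)).1 : ℝ) + 0) = 3 * C := by
    push_cast
    ring
  rw [h3]
  have ht0 : (0 : ℝ) < t := by exact_mod_cast ht
  refine div_le_div_of_nonneg_left (by positivity) (Real.sqrt_pos.2 ht0) (Real.sqrt_le_sqrt ?_)
  push_cast
  linarith

/-- the number of places is at least one -/
lemma one_le_card {k : ℕ} {α : Type} [DecidableEq α] (z : Fin (k + 1) → α) : 1 ≤ (univ.image z).card :=
  card_pos.2 ⟨z 0, mem_image_of_mem z (mem_univ 0)⟩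

lemma phi_diff {φ : ℕ → ℝ} (hφ : ∀ x, |φ x| ≤ 1) {a b : ℕ} (h : a ≤ b) :
    |φ b - φ a| ≤ 2 * ((b : ℝ) - a) := by
  rcases Nat.eq_or_lt_of_le h with h1 | h1
  · rw [h1]; simp
  · have h2 : (1 : ℝ) ≤ (b : ℝ) - a := by
      have : (a : ℝ) + 1 ≤ b := by exact_mod_cast h1
      linarith
    have h3 := abs_sub (φ b) (φ a)
    have h4 := hφ a
    have h5 := hφ b
    linarith

/-- the law of the number of places is concentrated at one if the mean is close to one -/
lemma CG_close {k : ℕ} {φ : ℕ → ℝ} (hφ : ∀ x, |φ x| ≤ 1) (t : ℕ) (a : Fin (k + 1) → ℤ) :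
    |CG (fun z : Fin (k + 1) → ℤ => φ (univ.image z).card) t a - φ 1| ≤
      2 * (CG (fun z : Fin (k + 1) → ℤ => ((univ.image z).card : ℝ)) t a - 1) := by
  have hpt : ∀ z : Fin (k + 1) → ℤ, |φ (univ.image z).card - φ 1| ≤ 2 * (((univ.image z).card : ℝ) - 1) := by
    intro z
    have := phi_diff hφ (one_le_card z)
    simpa using this
  have e1 : CG (fun z : Fin (k + 1) → ℤ => 2 * (((univ.image z).card : ℝ) - 1)) t a =
      2 * (CG (fun z : Fin (k + 1) → ℤ => ((univ.image z).card : ℝ)) t a - 1) := by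
    rw [CG_mul, CG_sub, CG_const]
  have e2 : CG (fun z : Fin (k + 1) → ℤ => φ (univ.image z).card - φ 1) t a =
      CG (fun z : Fin (k + 1) → ℤ => φ (univ.image z).card) t a - φ 1 := by
    rw [CG_sub, CG_const]
  rw [← e2, ← e1, abs_le]
  constructor
  · have h1 := CG_mono (F := fun z : Fin (k + 1) → ℤ => (-1) * (2 * (((univ.image z).card : ℝ) - 1)))
      (G := fun z => φ (univ.image z).card - φ 1) (fun z => by
        have := (abs_le.1 (hpt z)).1
        linarith) t a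
    rw [CG_mul] at h1
    linarith
  · exact CG_mono (fun z => (abs_le.1 (hpt z)).2) t a

/-- sums of nonnegative periodic functions over long intervals -/
lemma sum_per_le' {t : ℕ} {h : ℤ → ℝ} (hp : Pe t h) (h0 : ∀ x, 0 ≤ h x) (M : ℤ) (W : ℕ) :
    ∑ x ∈ Ico M (M + W), h x ≤ (W + 2 ^ t) * EE t h := by
  rw [Pool.Agent.Q158.Pair.sum_Ico_int]
  set r := W / 2 ^ t + 1 with hr
  have h2t : 0 < 2 ^ t := by positivity
  have hLq : W ≤ r * 2 ^ t := by
    rw [hr]
    have := Nat.div_add_mod W (2 ^ t)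
    have h3 := Nat.mod_lt W h2t
    nlinarith
  have h1 : ∑ i ∈ range W, h (M + i) ≤ ∑ i ∈ range (r * 2 ^ t), h (M + i) :=
    sum_le_sum_of_subset_of_nonneg (range_subset_range.2 hLq) fun i _ _ => h0 _
  have h2 := Pool.Agent.Q158.Pair.sum_block (2 ^ t) h2t h (fun x j => by
    have := hp x j
    push_cast
    exact this) r M
  rw [h2] at h1
  have h3 : ∑ i ∈ range (2 ^ t), h i = 2 ^ t * EE t h := by
    unfold EE
    field_simp
  rw [h3] at h1
  have h4 : 0 ≤ EE t h := EE_nonneg t h0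
  have h5 : (r : ℝ) * 2 ^ t ≤ W + 2 ^ t := by
    have : r * 2 ^ t ≤ W + 2 ^ t := by
      rw [hr]
      have := Nat.div_mul_le_self W (2 ^ t)
      nlinarith
    exact_mod_cast this
  calc _ ≤ (r : ℝ) * (2 ^ t * EE t h) := h1
    _ = (r * 2 ^ t) * EE t h := by ring
    _ ≤ (W + 2 ^ t) * EE t h := mul_le_mul_of_nonneg_right h5 h4

lemma one_le_Vn {L : ℕ} (hL : 1 ≤ L) (t : ℕ) (n : ℤ) : 1 ≤ Vn L t n :=
  card_pos.2 ⟨_, mem_image_of_mem _ (mem_range.2 hL)⟩

lemma one_le_VV {L : ℕ} (hL : 1 ≤ L) (t : ℕ) (n : ℤ) : 1 ≤ (VV L t n).card :=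
  card_pos.2 ⟨_, mem_image_of_mem _ (mem_range.2 hL)⟩

lemma card_Ico_W (M : ℤ) (W : ℕ) : ((Ico M (M + W)).card : ℝ) = W := by
  rw [Int.card_Ico]
  congr 1
  omega

/-- window sums of the number of values -/
lemma sum_Vn_le {L : ℕ} (hL : 1 ≤ L) (t : ℕ) (M : ℤ) (W : ℕ) :
    ∑ n ∈ Ico M (M + W), ((Vn L t n : ℝ) - 1) ≤ (W + 2 ^ t) * EE t (fun x => ((VV L t x).card : ℝ) - 1) := by
  refine le_trans ?_ (sum_per_le' (t := t) (h := fun x => ((VV L t x).card : ℝ) - 1) (fun x j => by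
    simp only [VV_per]) (fun x => by
      have : (1 : ℝ) ≤ ((VV L t x).card : ℝ) := by exact_mod_cast one_le_VV hL t x
      linarith) M W)
  refine sum_le_sum fun n _ => ?_
  have : (Vn L t n : ℝ) ≤ ((VV L t n).card : ℝ) := by exact_mod_cast Vn_le L t n
  linarith

lemma VV_one (t : ℕ) (x : ℤ) : (VV 1 t x).card = 1 := by
  unfold VV
  rw [range_one, image_singleton, card_singleton]

/-- job Full -/
theorem full (h1 : S_CwMean) (h2 : S_Mean) (h3 : S_MeanUp) (h4 : S_NetLaw) : S_Full := by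
  classical
  intro γ hG M₀ ε hM₀ hε
  have hγ1 : γ < 42 := by linarith [hG.2.1]
  have hγ0 : 41 < γ := by linarith [hG.1]
  obtain ⟨C₁, hC₁, hmean⟩ := h2 γ hG 1 one_pos
  obtain ⟨C₂, hC₂, hpq⟩ := pq_one_le
  obtain ⟨D, hD⟩ : ∃ D : ℝ, D = DD γ := ⟨_, rfl⟩
  obtain ⟨P, hP⟩ : ∃ P : ℝ, P = 2 / √Real.pi := ⟨_, rfl⟩
  have hP0 : 0 < P := by rw [hP]; positivity
  obtain ⟨κ, hκ⟩ : ∃ κ : ℝ, κ = min 1 (ε / (4 * C₁ + 2 * |D| * C₂ + P * |D| + 1)) := ⟨_, rfl⟩
  have hden : 0 < 4 * C₁ + 2 * |D| * C₂ + P * |D| + 1 := by positivity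
  have hκ0 : 0 < κ := by rw [hκ]; exact lt_min one_pos (by positivity)
  have hκ1 : κ ≤ 1 := by rw [hκ]; exact min_le_left _ _
  have hκ2 : (4 * C₁ + 2 * |D| * C₂ + P * |D| + 1) * κ ≤ ε := by
    have : κ ≤ ε / (4 * C₁ + 2 * |D| * C₂ + P * |D| + 1) := by rw [hκ]; exact min_le_right _ _
    rw [le_div_iff₀ hden] at this
    linarith
  obtain ⟨ε₁, hε₁⟩ : ∃ ε₁ : ℝ, ε₁ = ε / 8 := ⟨_, rfl⟩
  have hε₁0 : 0 < ε₁ := by rw [hε₁]; positivity
  obtain ⟨t₂, hup⟩ := h3 γ hG κ M₀ ε₁ hκ0 hM₀ hε₁0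
  obtain ⟨k, t₃, K₃, hlo⟩ := h4 γ hG κ M₀ ε₁ hκ0 hM₀ hε₁0
  obtain ⟨K₄, hK₄⟩ := exists_nat_ge ((P * |D| * M₀ + ε₁) / ε₁)
  refine ⟨max (max t₂ t₃) 2000, max K₃ (K₄ + 1), fun t ht L hL hLM M W hW => ?_⟩
  have ht2 : t₂ ≤ t := (le_max_left _ _).trans ((le_max_left _ _).trans ht)
  have ht3 : t₃ ≤ t := (le_max_right _ _).trans ((le_max_left _ _).trans ht)
  have ht4 : 2000 ≤ t := (le_max_right _ _).trans ht
  have hWa : K₃ * 2 ^ t ≤ W := le_trans (Nat.mul_le_mul_right _ (le_max_left _ _)) hW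
  have hWb : (K₄ + 1) * 2 ^ t ≤ W := le_trans (Nat.mul_le_mul_right _ (le_max_right _ _)) hW
  have h2t : (0 : ℝ) < 2 ^ t := by positivity
  have hWb' : ((K₄ : ℝ) + 1) * 2 ^ t ≤ W := by exact_mod_cast hWb
  have hW0 : (0 : ℝ) ≤ W := Nat.cast_nonneg W
  have hW2 : (2 : ℝ) ^ t ≤ W := by
    have : (0 : ℝ) ≤ (K₄ : ℝ) * 2 ^ t := by positivity
    linarith
  have ht0 : (0 : ℝ) < t := by
    have : 0 < t := by omega
    exact_mod_cast this
  have hst : 0 < √(t : ℝ) := Real.sqrt_pos.2 ht0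
  have hst2 : √(t : ℝ) * √(t : ℝ) = t := Real.mul_self_sqrt ht0.le
  have hst43 : 43 ≤ √(t : ℝ) := by
    apply Real.le_sqrt_of_sq_le
    have : (2000 : ℝ) ≤ t := by exact_mod_cast ht4
    linarith
  have hL1 : (1 : ℝ) ≤ L := by exact_mod_cast hL
  have hl0 : 0 ≤ Real.log L := Real.log_nonneg hL1
  rw [← hD, ← hP]
  obtain ⟨y, hy⟩ : ∃ y : ℝ, y = Real.log L / √t := ⟨_, rfl⟩
  have hy0 : 0 ≤ y := by rw [hy]; positivity
  have hylog : Real.log L = y * √t := by rw [hy]; field_simp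
  have hDy : D * Real.log L / √t = D * y := by rw [hy]; ring
  rw [hDy]
  have hVn1 : ∀ n, (1 : ℝ) ≤ Vn L t n := fun n => by exact_mod_cast one_le_Vn hL t n
  rcases le_or_gt (Real.log L) (κ * √t) with hA | hB
  · -- few values
    have hyκ : y ≤ κ := by rw [hy, div_le_iff₀ hst]; exact hA
    have hEE : EE t (fun x => ((VV L t x).card : ℝ) - 1) ≤ C₁ * y := by
      rcases Nat.eq_or_lt_of_le hL with h5 | h5
      · have e : (fun x => ((VV L t x).card : ℝ) - 1) = fun _ => 0 := by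
          funext x
          rw [← h5, VV_one]
          simp
        rw [e, EE_const]
        positivity
      · rw [hy]
        refine hmean L t h5 ?_
        have h6 : (γ + 1) * Real.log L ≤ 43 * √t := by
          have h7 : Real.log L ≤ √t := by
            refine hA.trans ?_
            calc κ * √t ≤ 1 * √t := mul_le_mul_of_nonneg_right hκ1 hst.le
              _ = √t := one_mul _
          nlinarith
        refine h6.trans ?_
        nlinarith
    have hsum : ∑ n ∈ Ico M (M + W), ((Vn L t n : ℝ) - 1) ≤ 2 * (C₁ * κ) * W := by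
      refine (sum_Vn_le hL t M W).trans ?_
      have h5 : C₁ * y ≤ C₁ * κ := mul_le_mul_of_nonneg_left hyκ hC₁.le
      have h6 : EE t (fun x => ((VV L t x).card : ℝ) - 1) ≤ C₁ * κ := hEE.trans h5
      calc ((W : ℝ) + 2 ^ t) * EE t (fun x => ((VV L t x).card : ℝ) - 1) ≤ (W + 2 ^ t) * (C₁ * κ) :=
            mul_le_mul_of_nonneg_left h6 (by positivity)
        _ ≤ (W + W) * (C₁ * κ) := mul_le_mul_of_nonneg_right (by linarith) (by positivity)
        _ = _ := by ring
    constructor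
    · intro φ hφ
      obtain ⟨m, hm⟩ : ∃ m : ℕ, m = ⌊D * Real.log L⌋₊ := ⟨_, rfl⟩
      rw [← hm]
      have hseg := h1 m t (fun i : Fin (m + 1) => (i : ℤ)) (fun i j hij => by
        show ((i : ℕ) : ℤ) ≤ ((j : ℕ) : ℤ)
        exact_mod_cast hij)
      have hgap : ∀ i : Fin m, pq t ((((i.succ : Fin (m + 1)) : ℕ) : ℤ) - (((i.castSucc : Fin (m + 1)) : ℕ) : ℤ)) =
          pq t 1 := by
        intro i
        congr 1
        rw [Fin.val_succ, Fin.val_castSucc]
        push_cast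
        ring
      have hseg' : CG (fun z : Fin (m + 1) → ℤ => ((univ.image z).card : ℝ)) t (fun i : Fin (m + 1) => (i : ℤ)) =
          1 + m * pq t 1 := by
        rw [hseg, sum_congr rfl fun i _ => hgap i, sum_const, card_univ, Fintype.card_fin, nsmul_eq_mul]
      have hcl := CG_close hφ t (fun i : Fin (m + 1) => (i : ℤ))
      rw [hseg'] at hcl
      have hmle : (m : ℝ) ≤ |D| * Real.log L := by
        rw [hm]
        rcases le_or_gt 0 (D * Real.log L) with h5 | h5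
        · refine (Nat.floor_le h5).trans ?_
          exact mul_le_mul_of_nonneg_right (le_abs_self D) hl0
        · rw [Nat.floor_of_nonpos h5.le]
          push_cast
          positivity
      have hmpq : (m : ℝ) * pq t 1 ≤ |D| * C₂ * κ := by
        have h5 := hpq t (by omega)
        calc (m : ℝ) * pq t 1 ≤ (|D| * Real.log L) * (C₂ / √t) :=
              mul_le_mul hmle h5 (Pool.Agent.Q74.KP.pq_nonneg _ _) (by positivity)
          _ = |D| * C₂ * y := by rw [hy]; ring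
          _ ≤ |D| * C₂ * κ := mul_le_mul_of_nonneg_left hyκ (by positivity)
      have hs1 : |∑ n ∈ Ico M (M + W), φ (Vn L t n) - φ 1 * W| ≤ 4 * (C₁ * κ) * W := by
        have e : ∑ n ∈ Ico M (M + W), φ (Vn L t n) - φ 1 * W = ∑ n ∈ Ico M (M + W), (φ (Vn L t n) - φ 1) := by
          rw [sum_sub_distrib, sum_const, nsmul_eq_mul, card_Ico_W]
          ring
        rw [e]
        refine (abs_sum_le_sum_abs _ _).trans ?_
        refine (sum_le_sum (g := fun n => 2 * ((Vn L t n : ℝ) - 1)) fun n _ => ?_).trans ?_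
        · have := phi_diff hφ (one_le_Vn hL t n)
          simpa using this
        · rw [← mul_sum]
          linarith
      have hs2 : |φ 1 * W - CG (fun z : Fin (m + 1) → ℤ => φ (univ.image z).card) t
          (fun i : Fin (m + 1) => (i : ℤ)) * W| ≤ 2 * (|D| * C₂ * κ) * W := by
        rw [← sub_mul, abs_mul, abs_of_nonneg hW0, abs_sub_comm]
        refine mul_le_mul_of_nonneg_right (hcl.trans ?_) hW0
        linarith
      have hs3 := abs_sub_le (∑ n ∈ Ico M (M + W), φ (Vn L t n)) (φ 1 * W)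
        (CG (fun z : Fin (m + 1) → ℤ => φ (univ.image z).card) t (fun i : Fin (m + 1) => (i : ℤ)) * W)
      refine hs3.trans ((add_le_add hs1 hs2).trans ?_)
      have h5 : (4 * C₁ + 2 * |D| * C₂) * κ ≤ ε := by
        have : 0 ≤ (P * |D| + 1) * κ := by positivity
        linarith
      calc 4 * (C₁ * κ) * W + 2 * (|D| * C₂ * κ) * W = ((4 * C₁ + 2 * |D| * C₂) * κ) * W := by ring
        _ ≤ ε * W := mul_le_mul_of_nonneg_right h5 hW0
    · have e : ∑ n ∈ Ico M (M + W), (Vn L t n : ℝ) - (1 + P * (D * y)) * W =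
          ∑ n ∈ Ico M (M + W), ((Vn L t n : ℝ) - 1) - P * (D * y) * W := by
        rw [sum_sub_distrib, sum_const, nsmul_eq_mul, card_Ico_W]
        ring
      rw [e]
      have h5 : 0 ≤ ∑ n ∈ Ico M (M + W), ((Vn L t n : ℝ) - 1) :=
        sum_nonneg fun n _ => by have := hVn1 n; linarith
      have h6 : |P * (D * y) * W| ≤ P * |D| * κ * W := by
        rw [abs_mul, abs_mul, abs_mul, abs_of_pos hP0, abs_of_nonneg hy0, abs_of_nonneg hW0]
        have : P * (|D| * y) ≤ P * |D| * κ := by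
          rw [← mul_assoc]
          exact mul_le_mul_of_nonneg_left hyκ (by positivity)
        exact mul_le_mul_of_nonneg_right this hW0
      refine (abs_sub _ _).trans ?_
      rw [abs_of_nonneg h5]
      refine (add_le_add hsum h6).trans ?_
      have h7 : (2 * C₁ + P * |D|) * κ ≤ ε := by
        have : 0 ≤ (2 * C₁ + 2 * |D| * C₂ + 1) * κ := by positivity
        linarith
      calc 2 * (C₁ * κ) * W + P * |D| * κ * W = ((2 * C₁ + P * |D|) * κ) * W := by ring
        _ ≤ ε * W := mul_le_mul_of_nonneg_right h7 hW0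
  · -- many values
    have hyM : y ≤ M₀ := by rw [hy, div_le_iff₀ hst]; exact hLM
    obtain ⟨j, hj, hnet⟩ := hlo t ht3 L hL hB.le hLM
    obtain ⟨hlaw, hmn⟩ := hnet M W hWa
    have hupt := hup t ht2 L hL hB.le hLM
    rw [← hD, ← hP, hDy] at hupt hmn
    rw [← hD] at hlaw
    -- the number of values of the net
    have hNle : ∀ n, (univ.image (fun i => T^[t] (n + j i n))).card ≤ Vn L t n := by
      intro n
      refine card_le_card fun x hx => ?_
      obtain ⟨i, -, rfl⟩ := mem_image.1 hx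
      exact mem_image.2 ⟨j i n, mem_range.2 (hj i n), rfl⟩
    have hEE : EE t (fun x => ((VV L t x).card : ℝ) - 1) ≤ P * (D * y) + ε₁ := by
      rw [EE_sub, EE_const]
      linarith
    have hEE0 : 0 ≤ EE t (fun x => ((VV L t x).card : ℝ) - 1) := EE_nonneg t fun x => by
      have : (1 : ℝ) ≤ ((VV L t x).card : ℝ) := by exact_mod_cast one_le_VV hL t x
      linarith
    have hVsum : ∑ n ∈ Ico M (M + W), (Vn L t n : ℝ) ≤ (1 + P * (D * y) + 2 * ε₁) * W := by
      have h5 := sum_Vn_le hL t M W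
      rw [sum_sub_distrib, sum_const, nsmul_eq_mul, card_Ico_W] at h5
      have h6 : P * (D * y) + ε₁ ≤ P * |D| * M₀ + ε₁ := by
        have : P * (D * y) ≤ P * (|D| * M₀) := by
          refine mul_le_mul_of_nonneg_left ?_ hP0.le
          calc D * y ≤ |D| * y := mul_le_mul_of_nonneg_right (le_abs_self D) hy0
            _ ≤ |D| * M₀ := mul_le_mul_of_nonneg_left hyM (abs_nonneg D)
        linarith
      have h7 : (2 : ℝ) ^ t * EE t (fun x => ((VV L t x).card : ℝ) - 1) ≤ ε₁ * W := by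
        have h8 : (P * |D| * M₀ + ε₁) ≤ ε₁ * K₄ := by
          rw [div_le_iff₀ hε₁0] at hK₄
          linarith
        calc (2 : ℝ) ^ t * EE t (fun x => ((VV L t x).card : ℝ) - 1) ≤ 2 ^ t * (ε₁ * K₄) :=
              mul_le_mul_of_nonneg_left (hEE.trans (h6.trans h8)) h2t.le
          _ = ε₁ * (K₄ * 2 ^ t) := by ring
          _ ≤ ε₁ * W := mul_le_mul_of_nonneg_left (by linarith) hε₁0.le
      have h9 : (W : ℝ) * EE t (fun x => ((VV L t x).card : ℝ) - 1) ≤ W * (P * (D * y) + ε₁) :=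
        mul_le_mul_of_nonneg_left hEE hW0
      have h10 : ((W : ℝ) + 2 ^ t) * EE t (fun x => ((VV L t x).card : ℝ) - 1) =
          W * EE t (fun x => ((VV L t x).card : ℝ) - 1) + 2 ^ t * EE t (fun x => ((VV L t x).card : ℝ) - 1) := by
        ring
      rw [h10] at h5
      linarith
    have hNsum : ∑ n ∈ Ico M (M + W), ((univ.image (fun i => T^[t] (n + j i n))).card : ℝ) ≤
        ∑ n ∈ Ico M (M + W), (Vn L t n : ℝ) := sum_le_sum fun n _ => by exact_mod_cast hNle n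
    have hdiff : ∑ n ∈ Ico M (M + W), ((Vn L t n : ℝ) - ((univ.image (fun i => T^[t] (n + j i n))).card : ℝ)) ≤
        3 * ε₁ * W := by
      rw [sum_sub_distrib]
      have h5 : (1 + P * (D * y) + 2 * ε₁) * (W : ℝ) - (1 + P * (D * y) - ε₁) * W = 3 * ε₁ * W := by ring
      linarith
    constructor
    · intro φ hφ
      have h5 := hlaw φ hφ
      have h6 : |∑ n ∈ Ico M (M + W), φ (Vn L t n) -
          ∑ n ∈ Ico M (M + W), φ (univ.image (fun i => T^[t] (n + j i n))).card| ≤ 6 * ε₁ * W := by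
        rw [← sum_sub_distrib]
        refine (abs_sum_le_sum_abs _ _).trans ?_
        refine (sum_le_sum fun n _ => phi_diff hφ (hNle n)).trans ?_
        rw [← mul_sum]
        linarith
      have h7 := abs_sub_le (∑ n ∈ Ico M (M + W), φ (Vn L t n))
        (∑ n ∈ Ico M (M + W), φ (univ.image (fun i => T^[t] (n + j i n))).card)
        (CG (fun z : Fin (⌊D * Real.log L⌋₊ + 1) → ℤ => φ (univ.image z).card) t
          (fun i : Fin (⌊D * Real.log L⌋₊ + 1) => (i : ℤ)) * W)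
      refine h7.trans ((add_le_add h6 h5).trans ?_)
      have h8 : (7 * ε₁) * (W : ℝ) ≤ ε * W := mul_le_mul_of_nonneg_right (by rw [hε₁]; linarith) hW0
      linarith
    · rw [abs_le]
      constructor
      · have h8 : ε₁ * (W : ℝ) ≤ ε * W := mul_le_mul_of_nonneg_right (by rw [hε₁]; linarith) hW0
        linarith
      · have h8 : (2 * ε₁) * (W : ℝ) ≤ ε * W := mul_le_mul_of_nonneg_right (by rw [hε₁]; linarith) hW0
        linarith

end Pool.Agent.Q26.BT
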