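import Pool.Agent.Q74.BT.Stm3
import Pool.Agent.Q153.BT.Top

/-!
# Project BT (helper74), part 3: job TopTwo
-/

set_option autoImplicit false

namespace Pool.Agent.Q26.BT

open Finset
open Pool.Agent.Q158.Pair (T surv nc)
open Pool.Agent.Q74.AR (oc bE oc_per)
open Pool.Agent.Q74.KP (EE Erf EE_mono EE_sum EE_mul)
open Pool.Agent.Q74.BL (nx ww)
open Pool.Agent.Q74.BT
open Pool.Agent.Q153.BT
open Pool.Agent.H395R2.G3 (rr FF rate)

/-- the proportion of the residues with a high level in the block -/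
lemma high_le {γ : ℝ} (hγ0 : 0 < γ) {lam : ℝ} (hlam : 0 < lam)
    (hspec : (1 + Real.exp lam) / 2 * Real.exp (-(lam * rr γ)) = Real.exp (-(1 / γ))) (ε : ℝ)
    (L t : ℕ) :
    EE t (fun x => Set.indicator {x : ℤ | ∃ j : ℕ, j < L ∧ (rr γ + ε) * t ≤ oc t (x + j)} 1 x) ≤
      (L : ℝ) * Real.exp (-(t / γ)) * Real.exp (-(lam * ε * t)) := by
  have h1 : ∀ x : ℤ, Set.indicator {x : ℤ | ∃ j : ℕ, j < L ∧ (rr γ + ε) * t ≤ oc t (x + j)} (1 : ℤ → ℝ) x ≤
      ∑ j ∈ range L, Real.exp (-(lam * ((rr γ + ε) * t))) * Real.exp (lam * (oc t (x + (j : ℤ)) : ℝ)) := by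
    intro x
    refine Set.indicator_apply_le' ?_ ?_
    · rintro ⟨j, hj, hzt⟩
      have h2 : (1 : ℝ) ≤ Real.exp (-(lam * ((rr γ + ε) * t))) * Real.exp (lam * (oc t (x + (j : ℤ)) : ℝ)) := by
        rw [← Real.exp_add]
        refine Real.one_le_exp ?_
        nlinarith
      exact h2.trans (single_le_sum (f := fun j : ℕ => Real.exp (-(lam * ((rr γ + ε) * t))) *
        Real.exp (lam * (oc t (x + (j : ℤ)) : ℝ))) (fun j _ => by positivity) (mem_range.2 hj))
    · intro _
      exact sum_nonneg fun j _ => by positivity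
  refine (EE_mono t h1).trans ?_
  rw [EE_sum]
  have h3 : ∀ j ∈ range L, EE t (fun x => Real.exp (-(lam * ((rr γ + ε) * t))) *
      Real.exp (lam * (oc t (x + (j : ℤ)) : ℝ))) = Real.exp (-(t / γ)) * Real.exp (-(lam * ε * t)) := by
    intro j _
    rw [EE_mul, EE_exp]
    have h4 : Real.exp (-(lam * ((rr γ + ε) * t))) = Real.exp (-(lam * rr γ)) ^ t * Real.exp (-(lam * ε * t)) := by
      rw [← Real.exp_nat_mul, ← Real.exp_add]
      congr 1
      ring
    rw [h4]
    calc Real.exp (-(lam * rr γ)) ^ t * Real.exp (-(lam * ε * t)) * ((1 + Real.exp lam) / 2) ^ t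
        = ((1 + Real.exp lam) / 2 * Real.exp (-(lam * rr γ))) ^ t * Real.exp (-(lam * ε * t)) := by
          rw [mul_pow]
          ring
      _ = _ := by
          rw [hspec, ← Real.exp_nat_mul]
          congr 2
          ring
  rw [sum_congr rfl h3, sum_const, card_range, nsmul_eq_mul, ← mul_assoc]

/-- job TopTwo -/
theorem topTwo (h : S_TopAll) : S_TopTwo := by
  intro γ hγ ε hε
  obtain ⟨lam, hlam, hspec⟩ := lam_spec hγ
  have hγ0 : 0 < γ := by linarith [hγ.1]
  obtain ⟨ε₁, hε₁⟩ : ∃ ε₁ : ℝ, ε₁ = min ε (min (1 / 2) (lam * ε * γ / 4)) := ⟨_, rfl⟩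
  have h1 : ε₁ ≤ ε := by rw [hε₁]; exact min_le_left _ _
  have h2 : ε₁ ≤ 1 / 2 := by rw [hε₁]; exact (min_le_right _ _).trans (min_le_left _ _)
  have h3 : ε₁ ≤ lam * ε * γ / 4 := by rw [hε₁]; exact (min_le_right _ _).trans (min_le_right _ _)
  have h0 : 0 < ε₁ := by
    rw [hε₁]
    refine lt_min hε (lt_min (by norm_num) (by positivity))
  obtain ⟨L₀, hL₀⟩ := h γ hγ ε₁ h0
  -- the error tends to zero
  obtain ⟨c, hc⟩ : ∃ c : ℝ, c = lam * ε * γ / 4 := ⟨_, rfl⟩
  have hc0 : 0 < c := by rw [hc]; positivity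
  refine ⟨max L₀ ⌈Real.exp (-Real.log ε / c)⌉₊, fun L hL => ?_⟩
  have hLa : L₀ ≤ L := (le_max_left _ _).trans hL
  have hLb : Real.exp (-Real.log ε / c) ≤ L :=
    (Nat.le_ceil _).trans (by exact_mod_cast (le_max_right _ _).trans hL)
  have hLpos : (0 : ℝ) < L := (Real.exp_pos _).trans_le hLb
  have hlog : -Real.log ε / c ≤ Real.log L := by
    rw [← Real.log_exp (-Real.log ε / c)]
    exact Real.log_le_log (Real.exp_pos _) hLb
  have hL1 : (1 : ℝ) ≤ L := by
    have : 0 < L := by exact_mod_cast hLpos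
    exact_mod_cast this
  have hlog0 : 0 ≤ Real.log L := Real.log_nonneg hL1
  obtain ⟨u, hu1, hu2, hu3⟩ := hL₀ L hLa
  choose jf hjf1 hjf2 using hu3
  have hpos2u : (0 : ℤ) < 2 ^ u := by positivity
  refine ⟨u, ?_, hu2, fun x => jf (x % 2 ^ u), fun x => hjf1 _, fun x y => ?_, ?_⟩
  · refine le_trans ?_ hu1
    exact mul_le_mul_of_nonneg_right (by linarith) (by positivity)
  · show jf ((x + 2 ^ u * y) % 2 ^ u) = jf (x % 2 ^ u)
    rw [Int.add_mul_emod_self_left]
  · have hoc : ∀ x : ℤ, (rr γ - ε₁) * u ≤ oc u (x + jf (x % 2 ^ u)) := by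
      intro x
      have e : x + (jf (x % 2 ^ u) : ℤ) = (x % 2 ^ u + jf (x % 2 ^ u)) + 2 ^ u * (x / 2 ^ u) := by
        have := Int.emod_add_mul_ediv x (2 ^ u)
        linarith
      rw [e, oc_per]
      exact hjf2 _
    have hle : ∀ x : ℤ, Set.indicator {x : ℤ | ¬ |(oc u (x + (jf (x % 2 ^ u) : ℤ)) : ℝ) - rr γ * u| ≤ ε * u}
        (1 : ℤ → ℝ) x ≤ Set.indicator {x : ℤ | ∃ j : ℕ, j < L ∧ (rr γ + ε) * u ≤ oc u (x + j)} 1 x := by
      intro x
      refine Set.indicator_le_indicator_of_subset ?_ (fun _ => zero_le_one) x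
      intro y hy
      have hy' : ¬ |(oc u (y + (jf (y % 2 ^ u) : ℤ)) : ℝ) - rr γ * u| ≤ ε * u := hy
      rw [abs_le, not_and_or] at hy'
      refine ⟨jf (y % 2 ^ u), hjf1 _, ?_⟩
      have hu0 : (0 : ℝ) ≤ u := Nat.cast_nonneg u
      rcases hy' with hy' | hy'
      · exfalso
        apply hy'
        have := hoc y
        nlinarith
      · push Not at hy'
        nlinarith
    refine (EE_mono u hle).trans ((high_le hγ0 hlam hspec ε L u).trans ?_)
    have e1 : (L : ℝ) * Real.exp (-(u / γ)) * Real.exp (-(lam * ε * u)) =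
        Real.exp (Real.log L - u / γ - lam * ε * u) := by
      rw [sub_eq_add_neg, sub_eq_add_neg, Real.exp_add, Real.exp_add, Real.exp_log hLpos]
    rw [e1]
    have e2 : (1 - ε₁) * Real.log L ≤ u / γ := by
      rw [le_div_iff₀ hγ0]
      calc (1 - ε₁) * Real.log L * γ = (1 - ε₁) * (γ * Real.log L) := by ring
        _ ≤ u := hu1
    have e3 : lam * ε * (γ * Real.log L / 2) ≤ lam * ε * u := by
      refine mul_le_mul_of_nonneg_left ?_ (by positivity)
      refine le_trans ?_ hu1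
      have : 0 ≤ γ * Real.log L := by positivity
      nlinarith
    have e4 : Real.log L - u / γ - lam * ε * u ≤ Real.log ε := by
      have e5 : ε₁ * Real.log L ≤ c * Real.log L := mul_le_mul_of_nonneg_right (by rw [hc]; exact h3) hlog0
      have e6 : lam * ε * (γ * Real.log L / 2) = 2 * (c * Real.log L) := by rw [hc]; ring
      have e7 : -Real.log ε ≤ c * Real.log L := by
        rw [div_le_iff₀ hc0] at hlog
        linarith
      linarith
    calc Real.exp (Real.log L - u / γ - lam * ε * u) ≤ Real.exp (Real.log ε) := Real.exp_le_exp.2 e4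
      _ = ε := Real.exp_log hε

end Pool.Agent.Q26.BT
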